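import Pool.Agent.Helper56.LD.Goals
import Pool.Agent.Helper56.LD.Basics

/-!
MP_0152c0_gt, packet LD-SP5: `StmtHU` (hereditary unicoherence).
-/

set_option autoImplicit false

namespace Pool.Agent.Helper17.LD

open Pool.Agent.Helper56.LD Set Filter Topology

section
variable {L Ω : Type} [DecidableEq L] [DecidableEq Ω]

/-- the centre. -/
def ctr : Amb L Ω := (0, fun _ _ => 0, fun _ => 0)

omit [DecidableEq L] in
theorem cpt_zero (ω : Ω) : cpt (L := L) ω 0 = ctr := by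
  refine amb_ext rfl (fun j l => rfl) (fun ω' => ?_)
  simp [ctr]

noncomputable def clamp (x : ℝ) : ℝ := max 0 (min 1 x)

theorem continuous_clamp : Continuous clamp := by
  unfold clamp; fun_prop

theorem clamp_hgt {n : ℕ} {w : ℝ} (hw : w ∈ Icc (0 : ℝ) 1) (j : ℕ) :
    clamp (hgt n w * 2 ^ (j + 1) - 1) = wt n w j := by
  rcases lt_trichotomy j n with h | h | h
  · rw [wt_lt h]
    have h1 : hgt n w ≤ 1 / 2 ^ n := hgt_le hw.2
    have h2 : (1 : ℝ) / 2 ^ n ≤ 1 / 2 ^ (j + 1) := by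
      apply one_div_le_one_div_of_le (by positivity)
      exact pow_le_pow_right₀ (by norm_num) h
    have h3 : hgt n w * 2 ^ (j + 1) ≤ 1 := by
      have := h1.trans h2
      rwa [le_div_iff₀ (by positivity)] at this
    unfold clamp
    rw [max_eq_left]
    exact (min_le_right _ _).trans (by linarith)
  · subst h
    rw [wt_eq]
    have h3 : hgt j w * 2 ^ (j + 1) = 1 + w := by
      unfold hgt
      field_simp
    rw [h3]
    unfold clamp
    have : 1 + w - 1 = w := by ring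
    rw [this, min_eq_right hw.2, max_eq_right hw.1]
  · rw [wt_gt h]
    have h1 : 1 / 2 ^ (n + 1) ≤ hgt n w := hgt_ge hw.1
    have h2 : (1 : ℝ) / 2 ^ j ≤ 1 / 2 ^ (n + 1) := by
      apply one_div_le_one_div_of_le (by positivity)
      exact pow_le_pow_right₀ (by norm_num) h
    have h3 : 2 ≤ hgt n w * 2 ^ (j + 1) := by
      have := h2.trans h1
      rw [div_le_iff₀ (by positivity)] at this
      rw [pow_succ]
      linarith
    unfold clamp
    rw [min_eq_left (by linarith), max_eq_right (by norm_num)]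

/-- the ray as a function of the height (for the levels `≤ N`). -/
noncomputable def RR (lt : ℕ → L → Ω) (e : ℕ → L) (N : ℕ) (h : ℝ) : Amb L Ω :=
  (h, fun j l => if e j = l then clamp (h * 2 ^ (j + 1) - 1) else 0,
   fun ω => ∑ n ∈ Finset.Icc 1 N,
    if lt n (e n) = ω then tent (clamp (h * 2 ^ (n + 1) - 1)) else 0)

theorem RR_eq (lt : ℕ → L → Ω) (e : ℕ → L) {N n : ℕ} (hn : n ≤ N) {w : ℝ}
    (hw : w ∈ Icc (0 : ℝ) 1) : RR lt e N (hgt n w) = pt lt n e w := by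
  refine amb_ext rfl (fun j l => ?_) (fun ω => ?_)
  · simp only [RR, pt_wt, clamp_hgt hw]
  · simp only [RR, pt_star, clamp_hgt hw]
    have hz : ∀ k, k ≠ n → tent (wt n w k) = 0 := by
      intro k hk
      rcases lt_or_gt_of_ne hk with h | h
      · rw [wt_lt h, tent_zero]
      · rw [wt_gt h, tent_one]
    by_cases h1 : 1 ≤ n
    · rw [Finset.sum_eq_single_of_mem n (Finset.mem_Icc.mpr ⟨h1, hn⟩)]
      · simp only [wt_eq, h1, true_and]
      · intro k _ hk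
        rw [hz k hk]
        simp
    · rw [Finset.sum_eq_zero]
      · simp [h1]
      · intro k hk
        rw [Finset.mem_Icc] at hk
        rw [hz k (by omega)]
        simp

theorem continuous_RR (lt : ℕ → L → Ω) (e : ℕ → L) (N : ℕ) : Continuous (RR lt e N) := by
  have hc := continuous_clamp
  have ht := continuous_tent
  refine Continuous.prodMk continuous_id (Continuous.prodMk ?_ ?_)
  · refine continuous_pi fun j => continuous_pi fun l => ?_
    split_ifs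
    · fun_prop
    · exact continuous_const
  · refine continuous_pi fun ω => ?_
    refine continuous_finsetSum _ fun n _ => ?_
    split_ifs
    · fun_prop
    · exact continuous_const

/-- the points of the ray of `e` whose height is in `I`. -/
def ray (lt : ℕ → L → Ω) (e : ℕ → L) (I : Set ℝ) : Set (Amb L Ω) :=
  {z | ∃ (m : ℕ) (v : ℝ), 0 < v ∧ v ≤ 1 ∧ hgt m v ∈ I ∧ z = pt lt m e v}

theorem ray_Icc_preconn (lt : ℕ → L → Ω) (e : ℕ → L) {h1 h2 : ℝ} (h1p : 0 < h1) (h2l : h2 ≤ 1) :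
    IsPreconnected (ray lt e (Icc h1 h2)) := by
  obtain ⟨N, hN⟩ := exists_pow_lt_of_lt_one h1p (by norm_num : (1/2 : ℝ) < 1)
  have hlev : ∀ (m : ℕ) (v : ℝ), 0 < v → v ≤ 1 → h1 ≤ hgt m v → m ≤ N := by
    intro m v hv hv1 hm
    by_contra hc
    push Not at hc
    have h3 : hgt m v ≤ 1 / 2 ^ m := hgt_le hv1
    have h4 : (1 : ℝ) / 2 ^ m ≤ 1 / 2 ^ N := by
      apply one_div_le_one_div_of_le (by positivity)
      exact pow_le_pow_right₀ (by norm_num) hc.le
    rw [one_div_pow] at hN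
    linarith
  have : ray lt e (Icc h1 h2) = RR lt e N '' Icc h1 h2 := by
    ext z
    constructor
    · rintro ⟨m, v, hv, hv1, hm, rfl⟩
      exact ⟨hgt m v, hm, RR_eq lt e (hlev m v hv hv1 hm.1) ⟨hv.le, hv1⟩⟩
    · rintro ⟨h, hh, rfl⟩
      obtain ⟨m, v, hv, hv1, hm⟩ := exists_hgt (h1p.trans_le hh.1) (hh.2.trans h2l)
      subst hm
      exact ⟨m, v, hv, hv1, hh, RR_eq lt e (hlev m v hv hv1 hh.1) ⟨hv.le, hv1⟩⟩
  rw [this]
  exact isPreconnected_Icc.image _ (continuous_RR lt e N).continuousOn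

theorem ray_mono (lt : ℕ → L → Ω) (e : ℕ → L) {I J : Set ℝ} (h : I ⊆ J) :
    ray lt e I ⊆ ray lt e J := by
  rintro _ ⟨m, v, hv, hv1, hm, rfl⟩
  exact ⟨m, v, hv, hv1, h hm, rfl⟩

theorem ray_preconn (lt : ℕ → L → Ω) (e : ℕ → L) {I : Set ℝ} (hI : I.OrdConnected)
    (hI' : I ⊆ Ioc 0 1) : IsPreconnected (ray lt e I) := by
  apply isPreconnected_of_forall_pair
  rintro _ ⟨m, v, hv, hv1, hm, rfl⟩ _ ⟨m', v', hv', hv1', hm', rfl⟩
  rcases le_total (hgt m v) (hgt m' v') with h | h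
  · exact ⟨ray lt e (Icc (hgt m v) (hgt m' v')), ray_mono lt e (hI.out hm hm'),
      ⟨m, v, hv, hv1, ⟨le_rfl, h⟩, rfl⟩, ⟨m', v', hv', hv1', ⟨h, le_rfl⟩, rfl⟩,
      ray_Icc_preconn lt e (hI' hm).1 (hI' hm').2⟩
  · exact ⟨ray lt e (Icc (hgt m' v') (hgt m v)), ray_mono lt e (hI.out hm' hm),
      ⟨m, v, hv, hv1, ⟨h, le_rfl⟩, rfl⟩, ⟨m', v', hv', hv1', ⟨le_rfl, h⟩, rfl⟩,
      ray_Icc_preconn lt e (hI' hm').1 (hI' hm).2⟩

/-- the canonical connected set joining two points. -/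
def Hull (lt : ℕ → L → Ω) (E : Set (ℕ → L)) (x y : Amb L Ω) : Prop :=
  ∃ T : Set (Amb L Ω), IsPreconnected T ∧ x ∈ T ∧ y ∈ T ∧
    ∀ A ⊆ MSet lt E, IsClosed A → IsPreconnected A → x ∈ A → y ∈ A → T ⊆ A

theorem Hull.symm {lt : ℕ → L → Ω} {E : Set (ℕ → L)} {x y : Amb L Ω} (h : Hull lt E x y) :
    Hull lt E y x := by
  obtain ⟨T, h1, h2, h3, h4⟩ := h
  exact ⟨T, h1, h3, h2, fun A a1 a2 a3 a4 a5 => h4 A a1 a2 a3 a5 a4⟩

theorem Hull.comp {lt : ℕ → L → Ω} {E : Set (ℕ → L)} {x y z : Amb L Ω} (h : Hull lt E x z)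
    (h' : Hull lt E z y)
    (hz : ∀ A ⊆ MSet lt E, IsClosed A → IsPreconnected A → x ∈ A → y ∈ A → z ∈ A) :
    Hull lt E x y := by
  obtain ⟨T, h1, h2, h3, h4⟩ := h
  obtain ⟨T', h1', h2', h3', h4'⟩ := h'
  refine ⟨T ∪ T', IsPreconnected.union z h3 h2' h1 h1', Or.inl h2, Or.inr h3',
    fun A a1 a2 a3 a4 a5 => ?_⟩
  have hzA := hz A a1 a2 a3 a4 a5
  exact union_subset (h4 A a1 a2 a3 a4 hzA) (h4' A a1 a2 a3 hzA a5)

end

section
variable {L Ω : Type} [DecidableEq L] [DecidableEq Ω] [TopologicalSpace L] [DiscreteTopology L]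
    [Finite L] [Finite Ω]

/-- a point not below any point of the ray of `e`. -/
def Far (e : ℕ → L) (y : Amb L Ω) : Prop :=
  y.1 ≤ 0 ∨ ∀ N : ℕ, ∃ j, N ≤ j ∧ ∃ l, l ≠ e j ∧ y.2.1 j l ≠ 0

theorem F1 (hcut : StmtCut) {lt : ℕ → L → Ω} {E : Set (ℕ → L)} (hE : IsClosed E)
    {A : Set (Amb L Ω)} (hAM : A ⊆ MSet lt E) (hAc : IsClosed A) (hAp : IsPreconnected A)
    {n : ℕ} {e : ℕ → L} {w : ℝ} (he : e ∈ E) (hw : 0 < w) (hw1 : w ≤ 1)
    (hx : pt lt n e w ∈ A) {m : ℕ} {v : ℝ} (hv : 0 < v) (hv1 : v ≤ 1)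
    (hle : hgt m v ≤ hgt n w) {y : Amb L Ω} (hy : y ∈ A)
    (hnot : ¬ (hgt m v ≤ y.1 ∧ ∀ (j : ℕ) (l : L), m ≤ j → l ≠ e j → y.2.1 j l = 0)) :
    pt lt m e v ∈ A := by
  rcases hle.lt_or_eq with h | h
  · by_contra hc
    exact hnot (hcut L Ω lt E hE A hAM hAc hAp m e v he hv hv1 hc n w ⟨hw.le, hw1⟩ h hx y hy)
  · obtain ⟨rfl, rfl⟩ := hgt_inj hv hv1 hw hw1 h
    exact hx

theorem hull_ray (hcut : StmtCut) {lt : ℕ → L → Ω} {E : Set (ℕ → L)} (hE : IsClosed E)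
    {n n' : ℕ} {e : ℕ → L} {w w' : ℝ} (he : e ∈ E) (hw : 0 < w) (hw1 : w ≤ 1) (hw' : 0 < w')
    (hw1' : w' ≤ 1) (h : hgt n' w' ≤ hgt n w) : Hull lt E (pt lt n e w) (pt lt n' e w') := by
  refine ⟨ray lt e (Icc (hgt n' w') (hgt n w)), ray_preconn lt e ordConnected_Icc ?_,
    ⟨n, w, hw, hw1, ⟨h, le_rfl⟩, rfl⟩, ⟨n', w', hw', hw1', ⟨le_rfl, h⟩, rfl⟩, ?_⟩
  · rintro t ⟨h1, h2⟩
    exact ⟨(hgt_pos hw'.le).trans_le h1, h2.trans (hgt_le_one hw1)⟩
  · rintro A hAM hAc hAp hx hy _ ⟨m, v, hv, hv1, ⟨h1, h2⟩, rfl⟩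
    rcases h1.lt_or_eq with h3 | h3
    · refine F1 hcut hE hAM hAc hAp he hw hw1 hx hv hv1 h2 hy ?_
      rintro ⟨h4, -⟩
      rw [pt_fst] at h4
      linarith
    · obtain ⟨rfl, rfl⟩ := hgt_inj hw' hw1' hv hv1 h3
      exact hy

theorem ray_sub_of_far (hcut : StmtCut) {lt : ℕ → L → Ω} {E : Set (ℕ → L)} (hE : IsClosed E)
    {A : Set (Amb L Ω)} (hAM : A ⊆ MSet lt E) (hAc : IsClosed A) (hAp : IsPreconnected A)
    {n : ℕ} {e : ℕ → L} {w : ℝ} (he : e ∈ E) (hw : 0 < w) (hw1 : w ≤ 1)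
    (hx : pt lt n e w ∈ A) {y : Amb L Ω} (hy : y ∈ A) (hfar : Far e y) :
    closure (ray lt e (Ioc 0 (hgt n w))) ⊆ A := by
  rw [hAc.closure_subset_iff]
  rintro _ ⟨m, v, hv, hv1, ⟨h1, h2⟩, rfl⟩
  refine F1 hcut hE hAM hAc hAp he hw hw1 hx hv hv1 h2 hy ?_
  rintro ⟨h3, h4⟩
  rcases hfar with h | h
  · linarith
  · obtain ⟨j, hj, l, hl, hne⟩ := h m
    exact hne (h4 j l hj hl)

omit [TopologicalSpace L] [DiscreteTopology L] [Finite L] [Finite Ω] in
theorem ctr_mem_closure (lt : ℕ → L → Ω) (e : ℕ → L) {h : ℝ} (hh : 0 < h) :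
    (ctr : Amb L Ω) ∈ closure (ray lt e (Ioc 0 h)) := by
  obtain ⟨K, hK⟩ := exists_pow_lt_of_lt_one hh (by norm_num : (1/2 : ℝ) < 1)
  rw [one_div_pow] at hK
  have hmem : ∀ᶠ k : ℕ in atTop, pt lt k e 1 ∈ ray lt e (Ioc 0 h) := by
    filter_upwards [eventually_ge_atTop K] with k hk
    refine ⟨k, 1, one_pos, le_rfl, ⟨hgt_pos zero_le_one, ?_⟩, rfl⟩
    rw [hgt_one]
    have : (1 : ℝ) / 2 ^ k ≤ 1 / 2 ^ K := by
      apply one_div_le_one_div_of_le (by positivity)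
      exact pow_le_pow_right₀ (by norm_num) hk
    linarith
  refine mem_closure_of_tendsto (f := fun k : ℕ => pt lt k e 1) ?_ hmem
  have h1 : Tendsto (fun k : ℕ => (pt lt k e 1).1) atTop (𝓝 0) := by
    simp only [pt_fst, hgt_one]
    have := tendsto_pow_atTop_nhds_zero_of_lt_one (by norm_num : (0:ℝ) ≤ 1/2)
      (by norm_num : (1/2 : ℝ) < 1)
    refine this.congr fun k => ?_
    rw [one_div_pow]
  have h2 : Tendsto (fun k : ℕ => (pt lt k e 1).2.1) atTop (𝓝 (fun _ _ => 0)) := by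
    rw [tendsto_pi_nhds]
    intro j
    rw [tendsto_pi_nhds]
    intro l
    refine tendsto_const_nhds.congr' ?_
    filter_upwards [eventually_gt_atTop j] with k hk
    simp only [pt_wt, wt_lt hk, ite_self]
  have h3 : Tendsto (fun k : ℕ => (pt lt k e 1).2.2) atTop (𝓝 (fun _ => 0)) := by
    rw [tendsto_pi_nhds]
    intro ω
    refine tendsto_const_nhds.congr' ?_
    filter_upwards with k
    simp only [pt_star, tent_one, ite_self]
  exact h1.prodMk_nhds (h2.prodMk_nhds h3)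

theorem hull_ctr (hcut : StmtCut) {lt : ℕ → L → Ω} {E : Set (ℕ → L)} (hE : IsClosed E)
    {n : ℕ} {e : ℕ → L} {w : ℝ} (he : e ∈ E) (hw : 0 < w) (hw1 : w ≤ 1) :
    Hull lt E (pt lt n e w) ctr := by
  refine ⟨closure (ray lt e (Ioc 0 (hgt n w))), (ray_preconn lt e ordConnected_Ioc ?_).closure,
    subset_closure ⟨n, w, hw, hw1, ⟨hgt_pos hw.le, le_rfl⟩, rfl⟩,
    ctr_mem_closure lt e (hgt_pos hw.le), ?_⟩
  · exact Ioc_subset_Ioc le_rfl (hgt_le_one hw1)
  · intro A hAM hAc hAp hx hy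
    exact ray_sub_of_far hcut hE hAM hAc hAp he hw hw1 hx hy (Or.inl le_rfl)

theorem F3 (hcomp : StmtCompact) (hpush : StmtPush) {lt : ℕ → L → Ω} {E : Set (ℕ → L)}
    (hE : IsClosed E) {A : Set (Amb L Ω)} (hAM : A ⊆ MSet lt E) (hAc : IsClosed A)
    (hAp : IsPreconnected A) {ω : Ω} {r : ℝ} (hx : cpt ω r ∈ A) {z : Amb L Ω} (hz : z ∈ A)
    (hz0 : z.1 ≤ 0) {ρ : ℝ} (hρ0 : 0 < ρ) (hzρ : z.2.2 ω ≤ ρ) (hρr : ρ ≤ r) : cpt ω ρ ∈ A := by
  have hg : Continuous (fun a : Amb L Ω => a.2.2 ω) :=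
    (continuous_apply ω).comp (continuous_snd.comp continuous_snd)
  have hne : ∀ n : ℕ, ({a : Amb L Ω | a ∈ A ∧ a.1 ≤ hgt n 1 ∧ a.2.2 ω = ρ}).Nonempty := by
    intro n
    obtain ⟨p1, p2, p3, -⟩ := hpush L Ω lt E n
    have hA' : IsPreconnected (push n '' A) := hAp.image _ (p1.mono hAM)
    have hxm : cpt ω r ∈ push n '' A :=
      ⟨cpt ω r, hx, p3 _ (hAM hx) (by rw [cpt_fst]; exact (hgt_pos zero_le_one).le)⟩
    have hzm : z ∈ push n '' A :=
      ⟨z, hz, p3 _ (hAM hz) (hz0.trans (hgt_pos zero_le_one).le)⟩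
    have hiv := hA'.intermediate_value hzm hxm hg.continuousOn
    have hρ : ρ ∈ Icc (z.2.2 ω) ((cpt (L := L) ω r).2.2 ω) := by
      refine ⟨hzρ, ?_⟩
      simpa using hρr
    obtain ⟨_, ⟨a, haA, rfl⟩, haρ⟩ := hiv hρ
    simp only [push] at haρ
    split_ifs at haρ with hc
    · exact ⟨a, haA, hc, haρ⟩
    · exact absurd haρ hρ0.ne
  have hcl : ∀ n : ℕ, IsClosed {a : Amb L Ω | a ∈ A ∧ a.1 ≤ hgt n 1 ∧ a.2.2 ω = ρ} := by
    intro n
    exact hAc.inter ((isClosed_le continuous_fst continuous_const).inter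
      (isClosed_eq hg continuous_const))
  have hAcp : IsCompact A := (hcomp L Ω lt E hE).of_isClosed_subset hAc hAM
  obtain ⟨a, ha⟩ := IsCompact.nonempty_iInter_of_sequence_nonempty_isCompact_isClosed
    (fun n : ℕ => {a : Amb L Ω | a ∈ A ∧ a.1 ≤ hgt n 1 ∧ a.2.2 ω = ρ})
    (by
      rintro n a ⟨h1, h2, h3⟩
      refine ⟨h1, h2.trans ?_, h3⟩
      exact hgt_le_of_level (Nat.lt_succ_self n) zero_le_one le_rfl)
    hne (hAcp.of_isClosed_subset (hcl 0) (fun a ha => ha.1)) hcl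
  rw [mem_iInter] at ha
  have haA : a ∈ A := (ha 0).1
  have ha0 : a.1 ≤ 0 := by
    by_contra hc
    push Not at hc
    obtain ⟨K, hK⟩ := exists_pow_lt_of_lt_one hc (by norm_num : (1/2 : ℝ) < 1)
    rw [one_div_pow] at hK
    have := (ha K).2.1
    rw [hgt_one] at this
    linarith
  obtain ⟨ω', r', hr', rfl⟩ := exists_core_rep (hAM haA) ha0
  have h3 := (ha 0).2.2
  rw [cpt_star] at h3
  split_ifs at h3 with hc
  · subst hc; subst h3
    exact haA
  · exact absurd h3 hρ0.ne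

theorem core_mem (hcomp : StmtCompact) (hpush : StmtPush) {lt : ℕ → L → Ω} {E : Set (ℕ → L)}
    (hE : IsClosed E) {A : Set (Amb L Ω)} (hAM : A ⊆ MSet lt E) (hAc : IsClosed A)
    (hAp : IsPreconnected A) {ω : Ω} {r : ℝ} (hx : cpt ω r ∈ A) {z : Amb L Ω} (hz : z ∈ A)
    (hz0 : z.1 ≤ 0) {ρ : ℝ} (hρ0 : 0 ≤ ρ) (hzρ : z.2.2 ω ≤ ρ) (hρr : ρ ≤ r) : cpt ω ρ ∈ A := by
  rcases hρ0.lt_or_eq with h | h
  · exact F3 hcomp hpush hE hAM hAc hAp hx hz hz0 h hzρ hρr
  · subst h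
    rcases hρr.lt_or_eq with h | h
    · have hcl : IsClosed {ρ : ℝ | cpt (L := L) ω ρ ∈ A} := hAc.preimage (continuous_cpt ω)
      have hsub : Ioc 0 r ⊆ {ρ : ℝ | cpt (L := L) ω ρ ∈ A} := by
        rintro t ⟨h1, h2⟩
        exact F3 hcomp hpush hE hAM hAc hAp hx hz hz0 h1 (hzρ.trans h1.le) h2
      have h3 := hcl.closure_subset_iff.mpr hsub
      rw [closure_Ioc h.ne] at h3
      exact h3 ⟨le_rfl, h.le⟩
    · rw [h]; exact hx

theorem hull_core (hcomp : StmtCompact) (hpush : StmtPush) {lt : ℕ → L → Ω} {E : Set (ℕ → L)}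
    (hE : IsClosed E) {ω : Ω} {r r' : ℝ} (hr' : 0 ≤ r') (hrr : r' ≤ r) :
    Hull lt E (cpt ω r) (cpt ω r') := by
  refine ⟨(fun ρ => cpt ω ρ) '' Icc r' r,
    isPreconnected_Icc.image _ (continuous_cpt ω).continuousOn,
    ⟨r, ⟨hrr, le_rfl⟩, rfl⟩, ⟨r', ⟨le_rfl, hrr⟩, rfl⟩, ?_⟩
  rintro A hAM hAc hAp hx hy _ ⟨ρ, ⟨h1, h2⟩, rfl⟩
  refine core_mem hcomp hpush hE hAM hAc hAp hx hy (by simp) (hr'.trans h1) ?_ h2
  simpa using h1

/-- merging rays. -/
theorem hull_merge (hcut : StmtCut) {lt : ℕ → L → Ω} {E : Set (ℕ → L)} (hE : IsClosed E)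
    {n n' : ℕ} {e e' : ℕ → L} {w w' : ℝ} (he : e ∈ E) (he' : e' ∈ E) (hw : 0 < w) (hw1 : w ≤ 1)
    (hw' : 0 < w') (hw1' : w' ≤ 1) (hm : ∃ N, ∀ j, N ≤ j → e j = e' j) :
    Hull lt E (pt lt n e w) (pt lt n' e' w') := by
  classical
  set N := Nat.find hm with hNdef
  have hN : ∀ j, N ≤ j → e j = e' j := Nat.find_spec hm
  by_cases h1 : N ≤ n'
  · -- `y` on the ray of `e`
    have hy : pt lt n' e' w' = pt lt n' e w' :=
      pt_congr lt fun j hj => (hN j (h1.trans hj)).symm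
    rw [hy]
    rcases le_total (hgt n' w') (hgt n w) with h | h
    · exact hull_ray hcut hE he hw hw1 hw' hw1' h
    · exact (hull_ray hcut hE he hw' hw1' hw hw1 h).symm
  · by_cases h2 : N ≤ n
    · have hx : pt lt n e w = pt lt n e' w :=
        pt_congr lt fun j hj => (hN j (h2.trans hj))
      rw [hx]
      rcases le_total (hgt n' w') (hgt n w) with h | h
      · exact hull_ray hcut hE he' hw hw1 hw' hw1' h
      · exact (hull_ray hcut hE he' hw' hw1' hw hw1 h).symm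
    · push Not at h1 h2
      obtain ⟨M, hM⟩ : ∃ M, N = M + 1 := ⟨N - 1, by omega⟩
      have hq : pt lt N e 1 = pt lt N e' 1 := pt_congr lt hN
      have hneM : e M ≠ e' M := by
        intro hc
        have := Nat.find_min hm (m := M) (by rw [← hNdef]; omega)
        apply this
        intro j hj
        rcases Nat.eq_or_lt_of_le hj with h | h
        · rw [← h]; exact hc
        · exact hN j (by omega)
      have hx : Hull lt E (pt lt n e w) (pt lt N e 1) :=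
        hull_ray hcut hE he hw hw1 one_pos le_rfl (hgt_lt_of_level h2 hw le_rfl).le
      have hy : Hull lt E (pt lt n' e' w') (pt lt N e' 1) :=
        hull_ray hcut hE he' hw' hw1' one_pos le_rfl (hgt_lt_of_level h1 hw' le_rfl).le
      rw [← hq] at hy
      refine hx.comp hy.symm ?_
      intro A hAM hAc hAp hxA hyA
      have hcl : IsClosed {v : ℝ | pt lt M e v ∈ A} := by
        have : Continuous (fun v : ℝ => pt lt M e v) :=
          (continuous_pt lt M).comp (Continuous.prodMk_right e)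
        exact hAc.preimage this
      have hsub : Ioc 0 w ⊆ {v : ℝ | pt lt M e v ∈ A} := by
        rintro v ⟨hv, hvw⟩
        refine F1 hcut hE hAM hAc hAp he hw hw1 hxA hv (hvw.trans hw1) ?_ hyA ?_
        · rcases Nat.lt_or_ge n M with h | h
          · exact (hgt_lt_of_level h hw (hvw.trans hw1)).le
          · have : n = M := by omega
            subst this
            exact hgt_mono hvw
        · rintro ⟨-, h4⟩
          have h5 := h4 M (e' M) le_rfl hneM.symm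
          simp only [pt_wt, if_true] at h5
          have := wt_pos hw' (show n' ≤ M by omega)
          linarith
      have h3 := hcl.closure_subset_iff.mpr hsub
      rw [closure_Ioc hw.ne] at h3
      have h0 : pt lt M e 0 ∈ A := h3 ⟨le_rfl, hw.le⟩
      rw [pt_zero, ← hM] at h0
      exact h0

omit [TopologicalSpace L] [DiscreteTopology L] [Finite L] [Finite Ω] in
theorem far_of_not_merge {lt : ℕ → L → Ω} {n' : ℕ} {e e' : ℕ → L} {w' : ℝ} (hw' : 0 < w')
    (hm : ¬ ∃ N, ∀ j, N ≤ j → e j = e' j) : Far e (pt lt n' e' w') := by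
  right
  intro N
  push Not at hm
  obtain ⟨j, hj, hne⟩ := hm (max N n')
  refine ⟨j, (le_max_left _ _).trans hj, e' j, hne.symm, ?_⟩
  simp only [pt_wt, if_true]
  exact (wt_pos hw' ((le_max_right _ _).trans hj)).ne'

theorem hull_all (hcomp : StmtCompact) (hcut : StmtCut) (hpush : StmtPush) {lt : ℕ → L → Ω}
    {E : Set (ℕ → L)} (hE : IsClosed E) {x y : Amb L Ω} (hx : x ∈ MSet lt E)
    (hy : y ∈ MSet lt E) : Hull lt E x y := by
  -- a core point and a ray point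
  have hcr : ∀ (ω : Ω) (r : ℝ), 0 ≤ r → ∀ (n : ℕ) (e : ℕ → L) (w : ℝ), e ∈ E → 0 < w → w ≤ 1 →
      Hull lt E (pt lt n e w) (cpt ω r) := by
    intro ω r hr n e w he hw hw1
    refine (hull_ctr hcut hE he hw hw1).comp (z := ctr) ?_ ?_
    · rw [← cpt_zero ω]
      exact (hull_core hcomp hpush hE le_rfl hr).symm
    · intro A hAM hAc hAp hxA hyA
      exact ray_sub_of_far hcut hE hAM hAc hAp he hw hw1 hxA hyA (Or.inl (by simp))
        (ctr_mem_closure lt e (hgt_pos hw.le))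
  rcases le_or_gt x.1 0 with h1 | h1
  · obtain ⟨ω, r, hr, rfl⟩ := exists_core_rep hx h1
    rcases le_or_gt y.1 0 with h2 | h2
    · obtain ⟨ω', r', hr', rfl⟩ := exists_core_rep hy h2
      by_cases hω : ω = ω'
      · subst hω
        rcases le_total r' r with h | h
        · exact hull_core hcomp hpush hE hr'.1 h
        · exact (hull_core hcomp hpush hE hr.1 h).symm
      · have ha : Hull lt E (cpt ω r) ctr := by
          rw [← cpt_zero ω]
          exact hull_core hcomp hpush hE le_rfl hr.1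
        have hb : Hull lt E (cpt ω' r') ctr := by
          rw [← cpt_zero ω']
          exact hull_core hcomp hpush hE le_rfl hr'.1
        refine ha.comp hb.symm ?_
        intro A hAM hAc hAp hxA hyA
        rw [← cpt_zero ω]
        refine core_mem hcomp hpush hE hAM hAc hAp hxA hyA (by simp) le_rfl ?_ hr.1
        simp [hω]
    · obtain ⟨n, e, w, he, hw, hw1, rfl⟩ := exists_rep hy h2
      exact (hcr ω r hr.1 n e w he hw hw1).symm
  · obtain ⟨n, e, w, he, hw, hw1, rfl⟩ := exists_rep hx h1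
    rcases le_or_gt y.1 0 with h2 | h2
    · obtain ⟨ω, r, hr, rfl⟩ := exists_core_rep hy h2
      exact hcr ω r hr.1 n e w he hw hw1
    · obtain ⟨n', e', w', he', hw', hw1', rfl⟩ := exists_rep hy h2
      by_cases hm : ∃ N, ∀ j, N ≤ j → e j = e' j
      · exact hull_merge hcut hE he he' hw hw1 hw' hw1' hm
      · refine (hull_ctr hcut hE he hw hw1).comp (hull_ctr hcut hE he' hw' hw1').symm ?_
        intro A hAM hAc hAp hxA hyA
        exact ray_sub_of_far hcut hE hAM hAc hAp he hw hw1 hxA hyA (far_of_not_merge hw' hm)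
          (ctr_mem_closure lt e (hgt_pos hw.le))

end

theorem stmtHU (hcomp : StmtCompact) (hcut : StmtCut) (hpush : StmtPush) : StmtHU := by
  intro L Ω _ _ _ _ _ _ lt E hE A B hAM hBM hA hAc hB hBc
  apply isPreconnected_of_forall_pair
  rintro x ⟨hxA, hxB⟩ y ⟨hyA, hyB⟩
  obtain ⟨T, h1, h2, h3, h4⟩ := hull_all hcomp hcut hpush hE (hAM hxA) (hAM hyA)
  exact ⟨T, subset_inter (h4 A hAM hA hAc.isPreconnected hxA hyA)
    (h4 B hBM hB hBc.isPreconnected hxB hyB), h2, h3, h1⟩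

end Pool.Agent.Helper17.LD
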