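import Pool.Agent.Helper56.LD.Goals

/-!
MP_0152c0_gt, packet LD-CO9: `StmtMatAux` (matching along auxiliary edges).
-/

set_option autoImplicit false

namespace Pool.Agent.Helper17.LD

open Pool.Agent.Helper56.LD Set

theorem eqv_symm {L : Type} {b : ℕ → L → Prop} {e s : ℕ → L} (h : Eqv b e s) : Eqv b s e :=
  fun n => ⟨(h n).1.symm, fun hn => ((h n).2 (fun h' => hn ((h n).1.mp h'))).symm⟩

theorem eqv_trans {L : Type} {b : ℕ → L → Prop} {e s t : ℕ → L} (h : Eqv b e s)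
    (h' : Eqv b s t) : Eqv b e t :=
  fun n => ⟨(h n).1.trans (h' n).1, fun hn =>
    ((h n).2 hn).trans ((h' n).2 (fun h'' => hn ((h n).1.mpr h'')))⟩

theorem sat_congr {L : Type} {b : ℕ → L → Prop} {E S S' : Set (ℕ → L)}
    (h1 : ∀ s ∈ S, ∃ s' ∈ S', Eqv b s s') (h2 : ∀ s' ∈ S', ∃ s ∈ S, Eqv b s' s) :
    sat b E S = sat b E S' := by
  ext e
  constructor
  · rintro ⟨he, s, hs, hes⟩
    obtain ⟨s', hs', h⟩ := h1 s hs
    exact ⟨he, s', hs', eqv_trans hes h⟩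
  · rintro ⟨he, s, hs, hes⟩
    obtain ⟨s', hs', h⟩ := h2 s hs
    exact ⟨he, s', hs', eqv_trans hes h⟩

theorem isN_iff {n : ℕ} {a : ℕ → Lab} (ha : IsAux (a n)) (N : ℕ) :
    IsN n a N ↔ IsN (n + 1) a N := by
  constructor
  · rintro ⟨h1, h2, h3⟩
    refine ⟨?_, h2, fun j hj hjN => h3 j (by omega) hjN⟩
    rcases Nat.lt_or_ge n N with h | h
    · omega
    · exfalso
      have : N = n := le_antisymm h h1
      subst this
      obtain ⟨τ, hτ⟩ := h2
      obtain ⟨q, hq⟩ := ha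
      rw [hτ] at hq
      cases hq
  · rintro ⟨h1, h2, h3⟩
    refine ⟨by omega, h2, fun j hj hjN => ?_⟩
    rcases Nat.eq_or_lt_of_le hj with h | h
    · rw [← h]; exact ha
    · exact h3 j h hjN

theorem matAux (hInv : StmtMainInv) (hF : StmtAuxFwd) (hB : StmtAuxBwd) (hR : StmtRoot) :
    StmtMatAux := by
  intro u hu n a hn ha hax
  have hTr := ha n
  have hN := isN_iff hax
  obtain ⟨⟨κ, τ⟩, hq⟩ := hax
  rw [hq]
  rcases hs : a (n + 1) with σ | ⟨κ', τ'⟩
  · -- main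
    have hmain : IsMain (a (n + 1)) := ⟨σ, hs⟩
    have hN1 : IsN n a (n + 1) := by
      rw [hN]
      exact ⟨le_rfl, hmain, fun j h1 h2 => by omega⟩
    have : SS n a = SS (n + 1) a := by
      ext e
      constructor
      · rintro ⟨h1, h2, h3⟩
        refine ⟨h1, fun N hNN => h2 N ((hN N).mpr hNN), fun κ1 τ1 h => ?_⟩
        rw [hs] at h
        cases h
      · rintro ⟨h1, h2, h3⟩
        refine ⟨h1, fun N hNN => h2 N ((hN N).mp hNN), fun κ1 τ1 h => ?_⟩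
        exact hR n κ1 τ1 a e ha h1 hmain (h2 (n + 1) ((hN _).mp hN1))
    rw [this]
  · rw [hq, hs] at hTr
    obtain ⟨hκ, hτ⟩ := hTr
    subst hκ
    apply sat_congr
    · rintro s ⟨h1, h2, h3⟩
      obtain ⟨s', hs', hok, heq, hmm⟩ := hF u hu n κ τ τ' hn hτ s h1 (h3 κ τ hq)
      refine ⟨s', ⟨hs', fun N hNN => ?_, fun κ1 τ1 h => ?_⟩, heq⟩
      · exact hInv N a s s' ha hNN.2.1 hmm (h2 N ((hN N).mpr hNN))
      · rw [hs] at h
        cases h
        exact hok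
    · rintro s ⟨h1, h2, h3⟩
      obtain ⟨s', hs', hok, heq, hmm⟩ := hB u hu n κ τ τ' hn hτ s h1 (h3 κ τ' hs)
      refine ⟨s', ⟨hs', fun N hNN => ?_, fun κ1 τ1 h => ?_⟩, heq⟩
      · refine hInv N a s s' ha hNN.2.1 ?_ (h2 N ((hN N).mp hNN))
        intro j hj
        exact (hmm j (hj.symm)).symm
      · rw [hq] at h
        cases h
        exact hok

end Pool.Agent.Helper17.LD
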